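import Pool.Statements.S04649
import Pool.Agent.T2h25.Lac.Cross

set_option autoImplicit false
open Pool Pool.MP_5053af_an

namespace Pool.Agent.S04649

/-- For every sequence of positive integers with n_{k+1} ≥ q n_k for some q>1, the set of x in [0,2π) at which the partial sums of cos(n_k x) come arbitrarily close to every real number infinitely often has Lebesgue measure 2π. -/
theorem result :
    ∀ (n : ℕ → ℕ) (q : ℝ), 1 < q → (∀ k, 0 < n k) →
      (∀ k, q * (n k : ℝ) ≤ (n (k + 1) : ℝ)) →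
      MeasureTheory.volume
        {x : ℝ | x ∈ Set.Ico 0 (2 * Real.pi) ∧
          ∀ ξ : ℝ, ∀ ε : ℝ, 0 < ε →
            ∃ᶠ m in Filter.atTop,
              |(∑ k ∈ Finset.range m, Real.cos ((n k : ℝ) * x)) - ξ| < ε}
        = ENNReal.ofReal (2 * Real.pi) := by
  intro n q hq hn hgap
  have h : Pool.Agent.T2h25.Lac q (fun k => (n k : ℝ)) :=
    ⟨hq, fun k => by exact_mod_cast hn k, hgap⟩
  have hae : ∀ᵐ x : ℝ, ∀ ξ : ℝ, ∀ ε : ℝ, 0 < ε → ∃ᶠ m in Filter.atTop,
      |(∑ k ∈ Finset.range m, Real.cos ((n k : ℝ) * x)) - ξ| < ε := by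
    have h1 : ∀ᵐ x : ℝ, ∀ (ξ : ℚ) (j M : ℕ),
        ¬ ∀ m, M ≤ m → 1 / ((j : ℝ) + 1) ≤
          |Pool.Agent.T2h25.S (fun k => (n k : ℝ)) m x - (ξ : ℝ)| := by
      rw [MeasureTheory.ae_all_iff]
      intro ξ
      rw [MeasureTheory.ae_all_iff]
      intro j
      rw [MeasureTheory.ae_all_iff]
      intro M
      rw [MeasureTheory.ae_iff]
      simpa only [not_not] using
        Pool.Agent.T2h25.hit h (ξ : ℝ) (ε := 1 / ((j : ℝ) + 1)) (by positivity) M
    filter_upwards [h1] with x hx ξ ε hε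
    rw [Filter.frequently_atTop]
    intro M
    obtain ⟨j, hj⟩ := exists_nat_one_div_lt (half_pos hε)
    obtain ⟨ξ', h2, h3⟩ := exists_rat_btwn (show ξ < ξ + ε / 2 by linarith)
    have h4 := hx ξ' j M
    push Not at h4
    obtain ⟨m, hm, hm'⟩ := h4
    refine ⟨m, hm, ?_⟩
    have h5 : |(∑ k ∈ Finset.range m, Real.cos ((n k : ℝ) * x)) - (ξ' : ℝ)| < 1 / ((j : ℝ) + 1) :=
      hm'
    rw [abs_lt] at h5 ⊢
    constructor <;> linarith [h5.1, h5.2]
  have h2 : {x : ℝ | x ∈ Set.Ico 0 (2 * Real.pi) ∧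
          ∀ ξ : ℝ, ∀ ε : ℝ, 0 < ε →
            ∃ᶠ m in Filter.atTop,
              |(∑ k ∈ Finset.range m, Real.cos ((n k : ℝ) * x)) - ξ| < ε} =ᵐ[MeasureTheory.volume]
      Set.Ico (0 : ℝ) (2 * Real.pi) := by
    filter_upwards [hae] with x hx
    apply propext
    exact ⟨fun h => h.1, fun h => ⟨h, hx⟩⟩
  rw [MeasureTheory.measure_congr h2, Real.volume_Ico, sub_zero]

end Pool.Agent.S04649
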